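import Pool.Agent.Helper54_Exc.Stmts
import Pool.Agent.Helper28_Excl.Example

/-! FAM: explicit kernels with power-law left tails satisfy (H). -/

namespace Pool.Agent.Helper54Exc.H36

open Filter Topology Pool.Agent.Helper28Excl Pool.Agent.Helper54Exc

set_option linter.unusedSectionVars false
set_option linter.unusedVariables false

variable {b : ℝ}

lemma zt_nonneg (s : ℝ) : 0 ≤ zt s := tsum_nonneg fun n => by positivity

lemma zt_pos {s : ℝ} (hs : 1 < s) : 0 < zt s := by
  have h := (summ_pow (s := -s) (by linarith)).le_tsum 0 fun n _ => by positivity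
  unfold zt
  refine lt_of_lt_of_le ?_ h
  simp

lemma cb_pos (hb : 2 < b) : 0 < cb b := by
  have h1 := zt_nonneg b
  have h2 := zt_pos (s := b - 1) (by linarith)
  unfold cb
  positivity

lemma cb_mul (hb : 2 < b) : cb b * zt b + cb b * zt (b - 1) = 1 / 2 := by
  have h1 := zt_nonneg b
  have h2 := zt_pos (s := b - 1) (by linarith)
  have h3 : zt b + zt (b - 1) ≠ 0 := by positivity
  unfold cb
  field_simp

lemma pb_one_pos (hb : 2 < b) : 0 < 1 - cb b * zt b := by
  have h1 := cb_mul hb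
  have h2 := mul_pos (cb_pos hb) (zt_pos (s := b - 1) (by linarith))
  linarith

lemma pb_nonneg (hb : 2 < b) (x : ℤ) : 0 ≤ pb b x := by
  unfold pb
  split_ifs with h h
  · have := cb_pos hb
    positivity
  · exact (pb_one_pos hb).le
  · exact le_rfl

lemma pb_neg (n : ℕ) : pb b (-((n : ℤ) + 1)) = cb b * ((n : ℝ) + 1) ^ (-b) := by
  unfold pb
  rw [if_pos (by omega)]
  push_cast
  rw [abs_neg, abs_of_pos (by positivity)]

lemma pb_neg' (n : ℕ) (hn : 1 ≤ n) : pb b (-(n : ℤ)) = cb b * (n : ℝ) ^ (-b) := by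
  unfold pb
  rw [if_pos (by omega)]
  push_cast
  rw [abs_neg, abs_of_nonneg (by positivity)]

lemma pb_nat (n : ℕ) : pb b (n : ℤ) = if n = 1 then 1 - cb b * zt b else 0 := by
  unfold pb
  rw [if_neg (by omega)]
  by_cases h : n = 1
  · rw [if_pos h, if_pos (by omega)]
  · rw [if_neg h, if_neg (by omega)]

lemma isKernel_pb (hb : 2 < b) : IsKernel (pb b) := by
  refine ⟨pb_nonneg hb, ?_⟩
  have h1 : HasSum (fun n : ℕ => pb b (n : ℤ)) (1 - cb b * zt b) := by
    simp only [pb_nat]
    exact hasSum_ite_eq 1 (1 - cb b * zt b)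
  have h2 : HasSum (fun n : ℕ => pb b (-((n : ℤ) + 1))) (cb b * zt b) := by
    simp only [pb_neg]
    exact (summ_pow (s := -b) (by linarith)).hasSum.mul_left (cb b)
  have h3 := HasSum.of_nat_of_neg_add_one h1 h2
  have e : 1 - cb b * zt b + cb b * zt b = 1 := by ring
  rwa [e] at h3

lemma rpow_aux (n : ℕ) : ((n : ℝ) + 1) * (cb b * ((n : ℝ) + 1) ^ (-b))
    = cb b * ((n : ℝ) + 1) ^ (-(b - 1)) := by
  have h : (0 : ℝ) < (n : ℝ) + 1 := by positivity
  have e : -(b - 1) = 1 + -b := by ring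
  rw [e, Real.rpow_add h, Real.rpow_one]
  ring

lemma finiteMean_pb (hb : 2 < b) : FiniteMean (pb b) := by
  unfold FiniteMean
  obtain ⟨F, hF⟩ : ∃ F : ℤ → ℝ, F = fun x : ℤ => |(x : ℝ)| * pb b x := ⟨_, rfl⟩
  rw [← hF]
  have h1 : Summable (fun n : ℕ => F (n : ℤ)) := by
    refine summable_of_ne_finset_zero (s := {1}) fun n hn => ?_
    rw [Finset.mem_singleton] at hn
    rw [hF]
    simp only
    rw [pb_nat, if_neg hn, mul_zero]
  have h2 : Summable (fun n : ℕ => F (-((n : ℤ) + 1))) := by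
    have h3 := (summ_pow (s := -(b - 1)) (by linarith)).mul_left (cb b)
    refine h3.congr fun n => ?_
    rw [hF]
    simp only
    rw [pb_neg]
    push_cast
    rw [abs_neg, abs_of_pos (by positivity), rpow_aux]
  have h3 : HasSum F (∑' n : ℕ, F (n : ℤ) + ∑' n : ℕ, F (-((n : ℤ) + 1))) :=
    HasSum.of_nat_of_neg_add_one h1.hasSum h2.hasSum
  exact h3.summable

lemma drift_pb (hb : 2 < b) : ∑' x : ℤ, (x : ℝ) * pb b x = 1 / 2 := by
  obtain ⟨F, hF⟩ : ∃ F : ℤ → ℝ, ∀ x, F x = (x : ℝ) * pb b x := ⟨_, fun x => rfl⟩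
  have h1 : HasSum (fun n : ℕ => F (n : ℤ)) (1 - cb b * zt b) := by
    refine (hasSum_ite_eq 1 (1 - cb b * zt b)).congr_fun fun n => ?_
    rw [hF, pb_nat]
    by_cases h : n = 1
    · subst h; simp
    · simp [h]
  have h2 : HasSum (fun n : ℕ => F (-((n : ℤ) + 1))) (-(cb b * zt (b - 1))) := by
    have h3 := ((summ_pow (s := -(b - 1)) (by linarith)).hasSum.mul_left (cb b)).neg
    refine h3.congr_fun fun n => ?_
    rw [hF, pb_neg, ← rpow_aux]
    push_cast
    ring
  have h3 : HasSum F (1 - cb b * zt b + -(cb b * zt (b - 1))) :=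
    HasSum.of_nat_of_neg_add_one h1 h2
  have h4 := h3.tsum_eq
  simp only [hF] at h4
  rw [h4]
  linarith [cb_mul hb]

lemma condH_pb (hb : 2 < b) (hb3 : b ≤ 3) : CondH (pb b) := by
  refine ⟨finiteMean_pb hb, by rw [drift_pb hb]; norm_num, fun hs => ?_⟩
  have h1 : Summable fun n : ℕ => (fun x : ℤ => if x < 0 then (x : ℝ) ^ 2 * pb b x else 0)
      (-((n : ℤ) + 1)) := by
    refine hs.comp_injective (i := fun n : ℕ => -((n : ℤ) + 1)) ?_
    intro a c hac
    simp only [neg_inj, add_left_inj, Nat.cast_inj] at hac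
    exact hac
  have h2 : Summable fun n : ℕ => cb b * ((n : ℝ) + 1) ^ (2 - b) := by
    refine h1.congr fun n => ?_
    simp only
    rw [if_pos (by omega), pb_neg]
    push_cast
    have h : (0 : ℝ) < (n : ℝ) + 1 := by positivity
    have e : 2 - b = 1 + 1 + -b := by ring
    rw [e, Real.rpow_add h, Real.rpow_add h, Real.rpow_one]
    ring
  have h3 := (summable_mul_left_iff (cb_pos hb).ne').mp h2
  exact not_summ_pow (by linarith) h3

lemma irred_pb (hb : 2 < b) : Irred (pb b) := by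
  intro x
  have h1 : (1 : ℤ) ∈ AddSubmonoid.closure {y : ℤ | 0 < pb b y} := by
    refine AddSubmonoid.subset_closure ?_
    have := pb_nat (b := b) 1
    rw [if_pos rfl] at this
    change 0 < pb b 1
    have e : pb b 1 = 1 - cb b * zt b := by exact_mod_cast this
    rw [e]
    exact pb_one_pos hb
  rcases lt_or_ge x 0 with h | h
  · refine AddSubmonoid.subset_closure ?_
    change 0 < pb b x
    have h2 := pb_neg' (b := b) (-x).toNat (by omega)
    have e : -(((-x).toNat : ℕ) : ℤ) = x := by omega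
    rw [e] at h2
    rw [h2]
    have : (0 : ℝ) < ((-x).toNat : ℕ) := by
      have : 0 < (-x).toNat := by omega
      exact_mod_cast this
    have := cb_pos hb
    positivity
  · have h2 := AddSubmonoid.nsmul_mem _ h1 x.toNat
    have e : x.toNat • (1 : ℤ) = x := by
      rw [nsmul_eq_mul, mul_one]
      omega
    rwa [e] at h2

theorem fam_stmt : FamStmt := fun b hb hb3 =>
  ⟨isKernel_pb hb, irred_pb hb, condH_pb hb hb3, cb_pos hb, fun n hn => pb_neg' n hn⟩

end Pool.Agent.Helper54Exc.H36
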