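import Pool.Agent.Helper54_Exc.Stmts

/-! MAR: facts on the marginals of the coupling and the resolvent of the window count. -/

namespace Pool.Agent.Helper54Exc.H36

open Filter Topology Pool.Agent.Helper28Excl Pool.Agent.Helper54Exc

set_option linter.unusedSectionVars false
set_option linter.unusedVariables false

lemma invState_fst {k : Kern} {ν : C(Config × Config, ℝ) →ₗ[ℝ] ℝ} (h : InvState XX k ν) :
    InvState X k (ν ∘ₗ pull pfst) := by
  refine ⟨h.1.pull pfst, ?_, Stat.pull pfst 0 (fun u v z => ?_) 0 (fun K f hf => ?_) h.2.2⟩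
  · rw [LinearMap.comp_apply, pull_one]
    exact h.2.1
  · rw [add_zero, add_zero]
    exact pfst_T u v z
  · rw [add_zero]
    exact Cyl_fst hf

lemma invState_snd {k : Kern} {ν : C(Config × Config, ℝ) →ₗ[ℝ] ℝ} (h : InvState XX k ν) :
    InvState X k (ν ∘ₗ pull psnd) := by
  refine ⟨h.1.pull psnd, ?_, Stat.pull psnd 0 (fun u v z => ?_) 0 (fun K f hf => ?_) h.2.2⟩
  · rw [LinearMap.comp_apply, pull_one]
    exact h.2.1
  · rw [add_zero, add_zero]
    exact psnd_T u v z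
  · rw [add_zero]
    exact Cyl_snd hf

lemma invState_ot {k : Kern} {ν : C(Config × Config, ℝ) →ₗ[ℝ] ℝ} (h : InvState XX k ν)
    (c : Bool) : InvState X k (ν ∘ₗ pull (ot c)) := by
  cases c
  · exact invState_fst h
  · exact invState_snd h

lemma pc_apply (R : ℕ) (η : Config) : pc R η = ∑ x ∈ box R, ev x η := by
  unfold pc
  rw [ContinuousMap.coe_sum, Finset.sum_apply]

lemma Cyl_pc (R : ℕ) : Cyl X R (pc R) := by
  intro z z' h
  rw [pc_apply, pc_apply]
  exact Finset.sum_congr rfl fun x hx => Cyl_ev hx z z' h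

/-- The normalised window count. -/
noncomputable def fR (R : ℕ) : C(Config, ℝ) := (1 / (2 * (R : ℝ) + 1)) • pc R

lemma Cyl_fR (R : ℕ) : Cyl X R (fR R) := by
  intro z z' h
  unfold fR
  rw [ContinuousMap.smul_apply, ContinuousMap.smul_apply, Cyl_pc R z z' h]

lemma fR_nonneg (R : ℕ) (η : Config) : 0 ≤ fR R η := by
  unfold fR
  rw [ContinuousMap.smul_apply, pc_apply, smul_eq_mul]
  exact mul_nonneg (by positivity) (Finset.sum_nonneg fun x _ => ev_nonneg x η)

lemma fR_le_one (R : ℕ) (η : Config) : fR R η ≤ 1 := by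
  unfold fR
  rw [ContinuousMap.smul_apply, pc_apply, smul_eq_mul]
  have h1 : ∑ x ∈ box R, ev x η ≤ 2 * (R : ℝ) + 1 := by
    rw [← card_box, ← nsmul_one, ← Finset.sum_const]
    exact Finset.sum_le_sum fun x _ => ev_le_one x η
  have h2 : (0 : ℝ) < 2 * (R : ℝ) + 1 := by positivity
  rw [one_div, inv_mul_le_iff₀ h2]
  linarith

lemma pc_eq (R : ℕ) : pc R = (2 * (R : ℝ) + 1) • fR R := by
  unfold fR
  have h2 : (0 : ℝ) < 2 * (R : ℝ) + 1 := by positivity
  rw [smul_smul]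
  field_simp
  rw [one_smul]

lemma hR_eq (k : Kern) (R N : ℕ) (t : ℝ) :
    hR k R N t = (2 * (R : ℝ) + 1) • Rop X k N t (fR R) := by
  unfold hR
  rw [pc_eq, Rop_smul]

lemma Esq_smul (a : ℝ) (h : C(Config, ℝ)) (u v : ℤ) : Esq (a • h) u v = a ^ 2 • Esq h u v := by
  ext η
  rw [ContinuousMap.smul_apply, Esq_apply, Esq_apply]
  simp only [ContinuousMap.smul_apply, smul_eq_mul]
  ring

theorem energy (k : Kern) (ν : C(Config × Config, ℝ) →ₗ[ℝ] ℝ) (hν : InvState XX k ν)
    (R : ℕ) (t : ℝ) (ht : 0 < t) : ∀ᶠ N in atTop, ∀ c : Bool,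
      ∑ a ∈ box N ×ˢ box N, k.p (a.2 - a.1)
        * ν (pull (ot c) (Esq (hR k R N t) a.1 a.2)) ≤ (2 * R + 1) ^ 2 / t := by
  have herr := (err_sq_tendsto k (Cyl_fR R) (fR_nonneg R) (fR_le_one R) ht.le).eventually
    (gt_mem_nhds (by positivity : 0 < 1 / (2 * t)))
  filter_upwards [herr, eventually_ge_atTop R] with N hN hNR c
  have hμ := invState_ot hν c
  have hen := energy_le hμ.1 hμ.2.1 hμ.2.2 ((Cyl_fR R).mono hNR) (fR_nonneg R) (fR_le_one R) ht
  rw [Gam_eval] at hen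
  have hs : 1 / (2 * t) + ‖Linf X k (Rop X k N t (fR R) * Rop X k N t (fR R))
      - LN X k N (Rop X k N t (fR R) * Rop X k N t (fR R))‖ ≤ 1 / t := by
    have h1 : 1 / (2 * t) + 1 / (2 * t) = 1 / t := by field_simp; ring
    linarith
  have h2 := hen.trans hs
  have h3 : ∑ a ∈ box N ×ˢ box N, k.p (a.2 - a.1)
        * ν (pull (ot c) (Esq (hR k R N t) a.1 a.2))
      = (2 * (R : ℝ) + 1) ^ 2 * ∑ a ∈ box N ×ˢ box N, k.p (a.2 - a.1)
        * (ν ∘ₗ pull (ot c)) (Esq (Rop X k N t (fR R)) a.1 a.2) := by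
    rw [Finset.mul_sum]
    refine Finset.sum_congr rfl fun a _ => ?_
    rw [hR_eq, Esq_smul, map_smul, map_smul, smul_eq_mul, LinearMap.comp_apply]
    ring
  rw [h3]
  calc _ ≤ (2 * (R : ℝ) + 1) ^ 2 * (1 / t) := mul_le_mul_of_nonneg_left h2 (by positivity)
    _ = _ := by ring

lemma sgn_smul (c : Bool) (h : C(Config, ℝ)) :
    sgn c • (pull (ot c) h - pull (bs c) h) = pull psnd h - pull pfst h := by
  cases c
  · show (-1 : ℝ) • (pull pfst h - pull psnd h) = _
    rw [neg_smul, one_smul, neg_sub]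
  · show (1 : ℝ) • (pull psnd h - pull pfst h) = _
    rw [one_smul]

lemma pull_pc_sub (R : ℕ) : pull psnd (pc R) - pull pfst (pc R) = cnt sd R - (2 : ℝ) • cnt sm R := by
  ext z
  simp only [ContinuousMap.sub_apply, ContinuousMap.smul_apply, pull_apply, pc_apply, cnt_apply,
    smul_eq_mul, Finset.mul_sum, psnd_apply, pfst_apply, ev_apply]
  rw [← Finset.sum_sub_distrib, ← Finset.sum_sub_distrib]
  refine Finset.sum_congr rfl fun x _ => ?_
  unfold sd sm
  cases z.1 x <;> cases z.2 x <;> norm_num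

lemma nu_pc {k : Kern} {ν : C(Config × Config, ℝ) →ₗ[ℝ] ℝ} (h : OneDisc k ν) (R : ℕ) :
    ν (pull psnd (pc R)) - ν (pull pfst (pc R)) = 1 - ν (kap R) := by
  rw [← map_sub, pull_pc_sub, map_sub, map_smul]
  have h1 : ν (cnt sm R) = 0 := by
    unfold cnt
    rw [map_sum]
    exact Finset.sum_eq_zero fun x _ => h.sm x
  have h2 := h.exc R
  rw [exc_eq, map_add, map_sub, h.inv.2.1] at h2
  rw [h1]
  simp only [smul_zero, sub_zero]
  linarith

theorem window (k : Kern) (ν : C(Config × Config, ℝ) →ₗ[ℝ] ℝ) (hν : OneDisc k ν)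
    (R : ℕ) (t ε : ℝ) (ht : 0 < t) (hε : 0 < ε) : ∀ᶠ N in atTop, ∀ c : Bool,
      ν (sgn c • (pull (ot c) (hR k R N t) - pull (bs c) (hR k R N t))) ≥ 1 - ν (kap R) - ε := by
  have herr := (err_tendsto k (Cyl_pc R) ht.le).eventually
    (gt_mem_nhds (by positivity : 0 < ε / (2 * t)))
  filter_upwards [herr, eventually_ge_atTop R] with N hN hNR c
  rw [sgn_smul, map_sub]
  have h1 := invState_fst hν.inv
  have h2 := invState_snd hν.inv
  have l1 := abs_Rop_sub_le h1.1 h1.2.1 h1.2.2 ((Cyl_pc R).mono hNR) ht.le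
  have l2 := abs_Rop_sub_le h2.1 h2.2.1 h2.2.2 ((Cyl_pc R).mono hNR) ht.le
  have hterr : t * ‖Linf X k (Rop X k N t (pc R)) - LN X k N (Rop X k N t (pc R))‖ ≤ ε / 2 := by
    have h1 := mul_le_mul_of_nonneg_left hN.le ht.le
    have h2 : t * (ε / (2 * t)) = ε / 2 := by field_simp
    rwa [h2] at h1
  have a1 := (abs_le.mp (l1.trans hterr)).2
  have a2 := (abs_le.mp (l2.trans hterr)).1
  rw [LinearMap.comp_apply, LinearMap.comp_apply] at a1 a2
  have h3 := nu_pc hν R
  show ν (pull psnd (Rop X k N t (pc R))) - ν (pull pfst (Rop X k N t (pc R))) ≥ _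
  linarith

theorem mar_stmt : MarStmt where
  energy := energy
  window := window

end Pool.Agent.Helper54Exc.H36
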